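import Mathlib

set_option autoImplicit false

namespace Pool.Agent.Results.MP_3b44a3_an.Exp

open Set Filter Topology MeasureTheory Quaternion
open scoped Nat

/-- the value of the power series with right coefficients `a` -/
noncomputable def ev (a : ℕ → ℍ[ℝ]) (q : ℍ[ℝ]) : ℍ[ℝ] := ∑' n, q ^ n * a n

/-- coefficients of the symmetrization -/
noncomputable def sym (a : ℕ → ℍ[ℝ]) (n : ℕ) : ℍ[ℝ] :=
  ∑ k ∈ Finset.range (n + 1), star (a k) * a (n - k)

/-- inner functions -/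
def Inner (a : ℕ → ℍ[ℝ]) : Prop :=
  (∀ q : ℍ[ℝ], ‖q‖ < 1 → Summable (fun n => q ^ n * a n) ∧ ‖ev a q‖ ≤ 1) ∧
  letI := borel ℍ[ℝ]
  haveI : BorelSpace ℍ[ℝ] := ⟨rfl⟩
  ∀ᵐ q ∂(Measure.hausdorffMeasure 3).restrict (Metric.sphere (0 : ℍ[ℝ]) 1),
    ∃ L : ℍ[ℝ], ‖L‖ = 1 ∧ Tendsto (fun r : ℝ => ev a (r • q)) (𝓝[<] 1) (𝓝 L)

theorem result : ∃ a : ℕ → ℍ[ℝ], Summable (fun n => ‖a n‖ ^ 2) ∧ Inner (sym a) ∧ ¬ Inner a := by
  let i : ℍ[ℝ] := ⟨0, 1, 0, 0⟩
  have i1 : ‖i‖ = 1 := by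
    rw [← mul_self_inj_of_nonneg (norm_nonneg _) zero_le_one, ← normSq_eq_norm_mul_self]
    simp [i, normSq_def']
  have i2 : star i = -i := by ext <;> simp [i]
  have i3 : -i * i = 1 := by ext <;> simp [i]
  have hs : ∀ n, sym (fun n => (n ! : ℝ)⁻¹ • i ^ n) n = if n = 0 then 1 else 0 := by
    intro n
    have := ((Commute.refl i).neg_left.add_pow n)
    rw [neg_add_cancel, zero_pow_eq] at this
    have h2 : sym (fun n => (n ! : ℝ)⁻¹ • i ^ n) n = (n ! : ℝ)⁻¹ • (if n = 0 then 1 else 0) := by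
      rw [this, Finset.smul_sum]
      refine Finset.sum_congr rfl fun k hk => ?_
      rw [Quaternion.star_smul, star_pow, i2, smul_mul_smul_comm, ← nsmul_eq_mul', ← Nat.cast_smul_eq_nsmul ℝ,
        smul_smul, Nat.cast_choose ℝ (Nat.lt_succ_iff.1 (Finset.mem_range.1 hk))]
      congr 1
      field_simp
    rw [h2]
    split_ifs with h <;> simp [h]
  have he : ∀ q, HasSum (fun n => q ^ n * sym (fun n => (n ! : ℝ)⁻¹ • i ^ n) n) 1 := fun q => by
    simpa [hs] using hasSum_single (f := fun n => q ^ n * sym (fun n => (n ! : ℝ)⁻¹ • i ^ n) n) 0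
      fun n hn => by simp [hs, hn]
  refine ⟨fun n => (n ! : ℝ)⁻¹ • i ^ n, ?_, ⟨fun q _ => ⟨(he q).summable, ?_⟩,
    Eventually.of_forall fun q => ⟨1, norm_one, ?_⟩⟩, fun h => ?_⟩
  · refine (Real.summable_pow_div_factorial 1).of_nonneg_of_le (fun _ => by positivity) fun n => ?_
    have : (1 : ℝ) ≤ n ! := by exact_mod_cast n.factorial_pos
    simp only [norm_smul, norm_pow, i1, one_pow, mul_one, norm_inv, Real.norm_natCast, one_div,
      inv_pow]
    exact inv_anti₀ (by positivity) (by nlinarith)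
  · rw [ev, (he q).tsum_eq, norm_one]
  · simp only [ev, (he _).tsum_eq]
    exact tendsto_const_nhds
  · have h1 := (h.1 ((1 / 2 : ℝ) • -i) (by simp [norm_smul, i1]; norm_num)).2
    have h2 : ∀ n, ((1 / 2 : ℝ) • -i) ^ n * ((n ! : ℝ)⁻¹ • i ^ n) =
        ((1 / 2 : ℝ) ^ n / n !) • (1 : ℍ[ℝ]) := fun n => by
      rw [smul_pow, smul_mul_smul_comm, ← (Commute.refl i).neg_left.mul_pow, i3, one_pow,
        ← div_eq_mul_inv]
    have h3 := Real.summable_pow_div_factorial (1 / 2)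
    simp only [ev, h2, h3.tsum_smul_const, norm_smul, norm_one, mul_one] at h1
    have h4 := h3.sum_le_tsum (Finset.range 2) fun _ _ => by positivity
    have := h4.trans ((le_abs_self _).trans h1)
    norm_num [Finset.sum_range_succ] at this

end Pool.Agent.Results.MP_3b44a3_an.Exp
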